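import Pool.Agent.W667.HL.PathUp

set_option autoImplicit false

/-! A refined upper bound for paths. -/

namespace Pool.Agent.TH886.HLE

open Finset Pool.W650.HL Pool.Agent.W667.HL

theorem main2 {r : ℕ} {p : Fin r → ℝ} (hp : Pr p) (X : ℝ) (hX0 : 0 < X)
    (hX : ∀ i, p i ≤ X * (1 - p i))
    (f g : Fin r → ℝ) (hf : f = fun i => 1 / (1 - ∑ i, p i ^ 2) * 1 + g i)
    (hg : ip p (fun _ => 1) g = 0) (n : ℕ) (hn : 5 ≤ n) :
    ip p f ((PP p)^[n] f) ≤ 1 / (1 - ∑ i, p i ^ 2) + X ^ 4 * ip p (PP p g) (PP p g) := by
  have hW := W_pos hp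
  have hgg := ip_nonneg hp (PP p g)
  have hf1 : ip p (fun _ => 1) f = 1 := by
    rw [hf, ip_add_right, hg, ip_one_one hp]
    field_simp
    ring
  rcases Nat.even_or_odd' n with ⟨k, hk | hk⟩
  · have hk2 : 3 ≤ k := by omega
    have e1 : n = k + k := by omega
    rw [e1, ip_iter hp]
    have hmono : ∀ k, 3 ≤ k →
        ip p ((PP p)^[k] f) ((PP p)^[k] f) ≤ ip p ((PP p)^[3] f) ((PP p)^[3] f) := by
      intro k hk
      induction k, hk using Nat.le_induction with
      | base => exact le_rfl
      | succ k _ ih =>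
        rw [Function.iterate_succ_apply']
        exact (contr hp _).trans ih
    refine (hmono k hk2).trans ?_
    have e2 : (PP p)^[3] f = fun i => 1 / (1 - ∑ i, p i ^ 2) * 1 + PP p (PP p (PP p g)) i := by
      change PP p (PP p (PP p f)) = _
      rw [hf, PP_add, PP_one hp, PP_add, PP_one hp, PP_add, PP_one hp]
    have hPg : ip p (fun _ => 1) (PP p g) = 0 := by rw [ip_one_PP hp, hg]
    have hPPg : ip p (fun _ => 1) (PP p (PP p g)) = 0 := by rw [ip_one_PP hp, hPg]
    have h0 : ip p (fun _ => 1) (PP p (PP p (PP p g))) = 0 := by rw [ip_one_PP hp, hPPg]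
    have h0' : ip p (PP p (PP p (PP p g))) (fun _ => 1) = 0 := by rw [ip_comm]; exact h0
    rw [e2, ip_add_left, ip_add_right, ip_add_right, h0, h0', ip_one_one hp]
    have s1 := strong hp X hX0 hX (PP p g) hPg
    have s2 := strong hp X hX0 hX (PP p (PP p g)) hPPg
    have s3 : X ^ 2 * ip p (PP p (PP p g)) (PP p (PP p g))
        ≤ X ^ 2 * (X ^ 2 * ip p (PP p g) (PP p g)) :=
      mul_le_mul_of_nonneg_left s1 (by positivity)
    have e3 : 1 / (1 - ∑ i, p i ^ 2) * (1 / (1 - ∑ i, p i ^ 2) * (1 - ∑ i, p i ^ 2) + 0) =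
        1 / (1 - ∑ i, p i ^ 2) := by
      field_simp
      ring
    rw [e3]
    nlinarith
  · have e1 : n = k + (k + 1) := by omega
    rw [e1, ip_iter hp, Function.iterate_succ_apply']
    have h := ip_le hp ((PP p)^[k] f)
    rw [one_iter hp, hf1] at h
    have h2 : ip p ((PP p)^[k] f) (PP p ((PP p)^[k] f)) ≤ 1 / (1 - ∑ i, p i ^ 2) := by
      rw [le_div_iff₀ hW]
      linarith
    have h3 : 0 ≤ X ^ 4 * ip p (PP p g) (PP p g) := by positivity
    linarith

theorem pathup3 (h : MFACTS) (r : ℕ) (a : Fin r → ℝ) (lam : ℝ) (hg : Good a lam) (X : ℝ)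
    (hX : ∀ i, a i / lam ≤ X) (n : ℕ) (hn : 5 ≤ n) :
    ∑ i, a i * U a n i ≤ lam ^ (n + 1) * WW a lam * ((1 + bb a lam) ^ 2 *
      (1 + X ^ 4 * EE a lam (fun i => (WW a lam * phi a lam i * chi a lam i - 1) ^ 2))) := by
  obtain ⟨hW, hpp, hmm, hm1, hb1, hb, hv, hE⟩ := h r a lam hg
  have hp : Pr (pp a lam) := ⟨fun i => (hpp i).1, fun i => (hpp i).2.1, hg.eqn⟩
  have hl := hg.lam_pos
  have hla : ∀ i, 0 < lam + a i := fun i => add_pos hl (hg.pos i)
  have h1p : ∀ i, 1 - pp a lam i = lam / (lam + a i) := by
    intro i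
    have := (hla i).ne'
    unfold pp
    field_simp
    ring
  have h1p0 : ∀ i, 1 - pp a lam i ≠ 0 := by
    intro i
    rw [h1p]
    exact (div_pos hl (hla i)).ne'
  have hphi : ∀ i, phi a lam i * (1 - pp a lam i) = 1 := by
    intro i
    have := (hla i).ne'
    rw [h1p]
    unfold phi
    field_simp
  have hXp : ∀ i, pp a lam i ≤ X * (1 - pp a lam i) := by
    intro i
    have e : pp a lam i = a i / lam * (1 - pp a lam i) := by
      have := (hla i).ne'
      rw [h1p]
      unfold pp
      field_simp
    have h2 : 0 < 1 - pp a lam i := by rw [h1p]; exact div_pos hl (hla i)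
    calc pp a lam i = a i / lam * (1 - pp a lam i) := e
      _ ≤ X * (1 - pp a lam i) := mul_le_mul_of_nonneg_right (hX i) h2.le
  have hX0 : 0 < X := by
    obtain ⟨i, _⟩ := nonemp hp
    exact lt_of_lt_of_le (div_pos (hg.pos i) hl) (hX i)
  have hap : ∀ i, a i * (1 - pp a lam i) = lam * pp a lam i := by
    intro i
    have := (hla i).ne'
    rw [h1p]
    unfold pp
    field_simp
  have hU : ∀ n i, U a n i = lam ^ n * ((PP (pp a lam))^[n] (phi a lam) i) *
      (1 - pp a lam i) := by
    intro n
    induction n with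
    | zero =>
      intro i
      simp only [U, Function.iterate_zero, id_eq, pow_zero, one_mul]
      exact (hphi i).symm
    | succ n ih =>
      intro i
      have e : U a (n + 1) i = (∑ j, a j * U a n j) - a i * U a n i := by
        unfold U
        rw [Function.iterate_succ_apply']
        rfl
      rw [e, Function.iterate_succ_apply']
      have e2 : ∀ j, a j * U a n j = lam ^ (n + 1) *
          (pp a lam j * (PP (pp a lam))^[n] (phi a lam) j) := by
        intro j
        rw [ih j]
        have := hap j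
        calc a j * (lam ^ n * (PP (pp a lam))^[n] (phi a lam) j * (1 - pp a lam j))
            = lam ^ n * (PP (pp a lam))^[n] (phi a lam) j * (a j * (1 - pp a lam j)) := by ring
          _ = lam ^ (n + 1) * (pp a lam j * (PP (pp a lam))^[n] (phi a lam) j) := by
            rw [this]; ring
      have e3 : ∑ j, a j * U a n j = lam ^ (n + 1) *
          ∑ j, pp a lam j * (PP (pp a lam))^[n] (phi a lam) j := by
        rw [Finset.mul_sum]
        exact Finset.sum_congr rfl fun j _ => e2 j
      rw [e2 i, e3]
      unfold PP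
      have := h1p0 i
      field_simp
  have hsum : ∑ i, a i * U a n i = lam ^ (n + 1) *
      ip (pp a lam) (phi a lam) ((PP (pp a lam))^[n] (phi a lam)) := by
    unfold ip
    rw [Finset.mul_sum]
    refine Finset.sum_congr rfl fun i _ => ?_
    rw [hU n i]
    have h1 := hap i
    have h2 := hphi i
    calc a i * (lam ^ n * (PP (pp a lam))^[n] (phi a lam) i * (1 - pp a lam i))
        = lam ^ n * (PP (pp a lam))^[n] (phi a lam) i * (a i * (1 - pp a lam i)) := by ring
      _ = lam ^ (n + 1) * (PP (pp a lam))^[n] (phi a lam) i * pp a lam i *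
          (phi a lam i * (1 - pp a lam i)) := by rw [h1, h2]; ring
      _ = _ := by ring
  have hWW : WW a lam = 1 - ∑ i, pp a lam i ^ 2 := rfl
  have hmW : ∀ i, mm a lam i * WW a lam = pp a lam i * (1 - pp a lam i) := by
    intro i
    unfold mm
    field_simp
  have hipE : ∀ f k : Fin r → ℝ,
      ip (pp a lam) f k = WW a lam * EE a lam (fun i => f i * k i) := by
    intro f k
    unfold ip EE
    rw [Finset.mul_sum]
    refine Finset.sum_congr rfl fun i _ => ?_
    rw [← hmW i]
    ring
  have hfg : phi a lam = fun i => 1 / (1 - ∑ i, pp a lam i ^ 2) * 1 + (a i / lam - bb a lam) := by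
    funext i
    rw [← hWW, ← hb1]
    unfold phi
    ring
  have hm := main2 hp X hX0 hXp (phi a lam) (fun i => a i / lam - bb a lam) hfg (by
      rw [hipE]
      have : EE a lam (fun i => 1 * (a i / lam - bb a lam)) = 0 := by
        have e : EE a lam (fun i => 1 * (a i / lam - bb a lam)) =
            bb a lam - bb a lam * ∑ i, mm a lam i := by
          unfold bb EE
          rw [Finset.mul_sum, ← Finset.sum_sub_distrib]
          exact Finset.sum_congr rfl fun i _ => by ring
        rw [e, hm1]
        ring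
      rw [this, mul_zero]) n hn
  have e4 : WW a lam * (1 + bb a lam) = 1 := by
    rw [hb1]
    field_simp
  have hPPg : ∀ i, PP (pp a lam) (fun i => a i / lam - bb a lam) i
      = (1 + bb a lam) * (WW a lam * phi a lam i * chi a lam i - 1) := by
    intro i
    have h1 : PP (pp a lam) (phi a lam) i
        = 1 / (1 - ∑ i, pp a lam i ^ 2) * 1 + PP (pp a lam) (fun i => a i / lam - bb a lam) i := by
      conv_lhs => rw [hfg]
      rw [PP_add, PP_one hp]
    have h2 := hU 1 i
    have h3 : U a 1 i = 1 - a i := by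
      have : U a 1 i = Mop a (fun _ => 1) i := rfl
      rw [this]
      simp [Mop, hg.sum_one]
    rw [h3, pow_one] at h2
    have h4 : (PP (pp a lam))^[1] (phi a lam) i = PP (pp a lam) (phi a lam) i := rfl
    rw [h4] at h2
    have h5 : PP (pp a lam) (phi a lam) i = phi a lam i * chi a lam i := by
      have e : chi a lam i = PP (pp a lam) (phi a lam) i * (1 - pp a lam i) := by
        unfold chi
        rw [h2]
        field_simp
      rw [e]
      have := hphi i
      calc PP (pp a lam) (phi a lam) i
          = PP (pp a lam) (phi a lam) i * (phi a lam i * (1 - pp a lam i)) := by rw [this]; ring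
        _ = _ := by ring
    rw [h5, ← hWW, ← hb1] at h1
    have h6 : (1 + bb a lam) * (WW a lam * phi a lam i * chi a lam i - 1)
        = (WW a lam * (1 + bb a lam)) * (phi a lam i * chi a lam i) - (1 + bb a lam) := by ring
    rw [h6, e4]
    linarith
  have hgg : ip (pp a lam) (PP (pp a lam) (fun i => a i / lam - bb a lam))
      (PP (pp a lam) (fun i => a i / lam - bb a lam)) =
      (1 + bb a lam) * EE a lam (fun i => (WW a lam * phi a lam i * chi a lam i - 1) ^ 2) := by
    rw [hipE]
    have e : EE a lam (fun i => PP (pp a lam) (fun i => a i / lam - bb a lam) i *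
        PP (pp a lam) (fun i => a i / lam - bb a lam) i)
        = (1 + bb a lam) ^ 2 *
          EE a lam (fun i => (WW a lam * phi a lam i * chi a lam i - 1) ^ 2) := by
      unfold EE
      rw [Finset.mul_sum]
      refine Finset.sum_congr rfl fun i _ => ?_
      beta_reduce
      rw [hPPg i]
      ring
    rw [e]
    calc WW a lam * ((1 + bb a lam) ^ 2 * EE a lam
          (fun i => (WW a lam * phi a lam i * chi a lam i - 1) ^ 2))
        = (WW a lam * (1 + bb a lam)) * ((1 + bb a lam) * EE a lam
          (fun i => (WW a lam * phi a lam i * chi a lam i - 1) ^ 2)) := by ring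
      _ = _ := by rw [e4, one_mul]
  rw [hgg, ← hWW, ← hb1] at hm
  rw [hsum]
  have hln : 0 < lam ^ (n + 1) := pow_pos hl _
  have e5 : lam ^ (n + 1) * WW a lam * ((1 + bb a lam) ^ 2 *
      (1 + X ^ 4 * EE a lam (fun i => (WW a lam * phi a lam i * chi a lam i - 1) ^ 2))) =
      lam ^ (n + 1) * ((WW a lam * (1 + bb a lam)) * ((1 + bb a lam) +
        X ^ 4 * ((1 + bb a lam) *
          EE a lam (fun i => (WW a lam * phi a lam i * chi a lam i - 1) ^ 2)))) := by ring
  rw [e5, e4, one_mul]
  exact mul_le_mul_of_nonneg_left hm hln.le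

end Pool.Agent.TH886.HLE
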