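import Pool.Agent.W650.HL.AllC
import Pool.Agent.TH886.HLE.Path
import Pool.Agent.TH886.HLE.Fin3

set_option autoImplicit false

/-! Complete tripartite graphs in which no part is larger than the other two together. -/

namespace Pool.Agent.TH886.HLE

open Finset Pool.W650.HL

theorem sorted3 (P : Fin 3 → ℝ) : ∃ i j k : Fin 3, P k ≤ P j ∧ P j ≤ P i ∧ (∀ l, P l ≤ P i) ∧
    ∀ f : Fin 3 → ℝ, ∑ l, f l = f i + f j + f k := by
  have hs : ∀ f : Fin 3 → ℝ, ∑ l, f l = f 0 + f 1 + f 2 := fun f => Fin.sum_univ_three f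
  have hl : ∀ l : Fin 3, l = 0 ∨ l = 1 ∨ l = 2 := by decide
  have mk : ∀ i j k : Fin 3, P k ≤ P j → P j ≤ P i → (∀ l, l = i ∨ l = j ∨ l = k) →
      (∀ f : Fin 3 → ℝ, f 0 + f 1 + f 2 = f i + f j + f k) →
      ∃ i j k : Fin 3, P k ≤ P j ∧ P j ≤ P i ∧ (∀ l, P l ≤ P i) ∧
        ∀ f : Fin 3 → ℝ, ∑ l, f l = f i + f j + f k := by
    intro i j k h1 h2 h3 h4
    refine ⟨i, j, k, h1, h2, ?_, fun f => by rw [hs, h4]⟩
    intro l
    rcases h3 l with h | h | h
    · rw [h]
    · rw [h]; exact h2
    · rw [h]; exact h1.trans h2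
  rcases le_total (P 0) (P 1) with h01 | h01
  · rcases le_total (P 1) (P 2) with h12 | h12
    · exact mk 2 1 0 h01 h12 (by decide) (fun f => by ring)
    · rcases le_total (P 0) (P 2) with h02 | h02
      · exact mk 1 2 0 h02 h12 (by decide) (fun f => by ring)
      · exact mk 1 0 2 h02 h01 (by decide) (fun f => by ring)
  · rcases le_total (P 1) (P 2) with h12 | h12
    · rcases le_total (P 0) (P 2) with h02 | h02
      · exact mk 2 0 1 h01 h02 (by decide) (fun f => by ring)
      · exact mk 0 2 1 h12 h02 (by decide) (fun f => by ring)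
    · exact mk 0 1 2 h12 h01 (by decide) (fun f => by ring)

theorem finint3 (a : Fin 3 → ℝ) (lam : ℝ) (hg : Good a lam) (ha : ∀ i, a i ≤ 1 / 2) :
    ∃ X : ℝ, (∀ i, a i / lam ≤ X) ∧
      0 ≤ EE a lam (fun i => (WW a lam * phi a lam i * chi a lam i - 1) ^ 2) ∧
      Real.log ((1 + bb a lam) ^ 2 *
          (1 + X ^ 4 * EE a lam (fun i => (WW a lam * phi a lam i * chi a lam i - 1) ^ 2)))
        ≤ 2 * EE a lam (fun i => Real.log (phi a lam i))
          + 4 * EE a lam (fun i => Real.log (chi a lam i)) := by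
  obtain ⟨hW, hpp, hmm, hsm, hb1, hb0, hv0, hvar⟩ := mfacts' 3 a lam hg
  have hl : 0 < lam := hg.lam_pos
  obtain ⟨i, j, k, hkj, hji, hmax, hs3⟩ := sorted3 a
  have hla : ∀ l, 0 < lam + a l := fun l => add_pos hl (hg.pos l)
  have hE0 : 0 ≤ EE a lam (fun i => (WW a lam * phi a lam i * chi a lam i - 1) ^ 2) := by
    unfold EE
    exact Finset.sum_nonneg fun l _ => mul_nonneg (hmm l).le (sq_nonneg _)
  refine ⟨a i / lam, fun l => div_le_div_of_nonneg_right (hmax l) hl.le, hE0, ?_⟩
  have hmono : ∀ l m, a l ≤ a m → pp a lam l ≤ pp a lam m := by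
    intro l m h
    unfold pp
    rw [div_le_div_iff₀ (hla l) (hla m)]
    nlinarith
  have h1p : ∀ l, 1 - pp a lam l = lam / (lam + a l) := by
    intro l
    have := (hla l).ne'
    unfold pp
    field_simp
    ring
  have h1p0 : ∀ l, 0 < 1 - pp a lam l := fun l => by rw [h1p]; exact div_pos hl (hla l)
  have hx : ∀ l, pp a lam l / (1 - pp a lam l) = a l / lam := by
    intro l
    have := (hla l).ne'
    rw [h1p]
    unfold pp
    field_simp
  have hsumP : pp a lam i + pp a lam j + pp a lam k = 1 := by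
    rw [← hs3]; exact hg.eqn
  have hsuma : a i + a j + a k = 1 := by
    rw [← hs3]; exact hg.sum_one
  have ei : pp a lam j + pp a lam k = 1 - pp a lam i := by linarith
  have ej : pp a lam i + pp a lam k = 1 - pp a lam j := by linarith
  have ek : pp a lam i + pp a lam j = 1 - pp a lam k := by linarith
  have hWs : WW a lam = pp a lam i * (pp a lam j + pp a lam k)
      + pp a lam j * (pp a lam i + pp a lam k) + pp a lam k * (pp a lam i + pp a lam j) := by
    have : WW a lam = 1 - ∑ l, pp a lam l ^ 2 := rfl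
    rw [this, hs3, ei, ej, ek]
    have : (1 : ℝ) = pp a lam i + pp a lam j + pp a lam k := hsumP.symm
    linear_combination (-1 : ℝ) * hsumP
  have hLs : 1 / lam = pp a lam i / (pp a lam j + pp a lam k)
      + pp a lam j / (pp a lam i + pp a lam k) + pp a lam k / (pp a lam i + pp a lam j) := by
    rw [ei, ej, ek, hx, hx, hx, ← add_div, ← add_div, hsuma]
  have hpoly : pp a lam i / (pp a lam j + pp a lam k) ≤
      pp a lam j / (pp a lam i + pp a lam k) + pp a lam k / (pp a lam i + pp a lam j) := by
    rw [ei, ej, ek, hx, hx, hx, ← add_div]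
    apply div_le_div_of_nonneg_right _ hl.le
    have := ha i
    linarith
  have hreg := poly_lin (pp a lam i) (pp a lam j) (pp a lam k) (hpp k).1 (hmono j i hji)
    (hmono k j hkj) hpoly
  have key := fin3 (pp a lam i) (pp a lam j) (pp a lam k) (WW a lam) (1 / lam) (hpp k).1
    (hmono k j hkj) (hmono j i hji) hsumP hreg hWs hLs
  rw [ei, ej, ek, hx, hx, hx] at key
  have hc : ∀ l, 1 / lam - a l / lam = chi a lam l := by
    intro l
    unfold chi
    rw [sub_div]
  have hph : ∀ l, WW a lam / (1 - pp a lam l) = WW a lam * phi a lam l := by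
    intro l
    have := (hla l).ne'
    rw [h1p]
    unfold phi
    field_simp
  rw [hc, hc, hc, hph, hph, hph] at key
  have hEE : ∀ f : Fin 3 → ℝ, WW a lam * EE a lam f = pp a lam i * (1 - pp a lam i) * f i
      + pp a lam j * (1 - pp a lam j) * f j + pp a lam k * (1 - pp a lam k) * f k := by
    intro f
    unfold EE
    rw [hs3]
    unfold mm
    field_simp
  have k1 := hEE (fun l => (WW a lam * phi a lam l * chi a lam l - 1) ^ 2)
  have k2 := hEE (fun l => 4 * Real.log (chi a lam l) + 2 * Real.log (WW a lam * phi a lam l))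
  beta_reduce at k1 k2
  rw [← k1, ← k2] at key
  have key2 : (a i / lam) ^ 4 * EE a lam (fun l => (WW a lam * phi a lam l * chi a lam l - 1) ^ 2)
      ≤ EE a lam (fun l => 4 * Real.log (chi a lam l) + 2 * Real.log (WW a lam * phi a lam l)) := by
    have : WW a lam * ((a i / lam) ^ 4 *
        EE a lam (fun l => (WW a lam * phi a lam l * chi a lam l - 1) ^ 2))
        ≤ WW a lam * EE a lam
          (fun l => 4 * Real.log (chi a lam l) + 2 * Real.log (WW a lam * phi a lam l)) := by
      calc _ = (a i / lam) ^ 4 * (WW a lam *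
          EE a lam (fun l => (WW a lam * phi a lam l * chi a lam l - 1) ^ 2)) := by ring
        _ ≤ _ := key
    exact le_of_mul_le_mul_left this hW
  have hphipos : ∀ l, 0 < phi a lam l := by
    intro l
    unfold phi
    have := div_pos (hg.pos l) hl
    linarith
  have e1 : EE a lam (fun l => 4 * Real.log (chi a lam l) + 2 * Real.log (WW a lam * phi a lam l))
      = 4 * EE a lam (fun l => Real.log (chi a lam l))
        + 2 * EE a lam (fun l => Real.log (phi a lam l)) + 2 * Real.log (WW a lam) := by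
    have h : ∀ l, Real.log (WW a lam * phi a lam l)
        = Real.log (WW a lam) + Real.log (phi a lam l) := fun l =>
      Real.log_mul hW.ne' (hphipos l).ne'
    unfold EE
    rw [hs3, hs3, hs3]
    beta_reduce
    rw [h, h, h]
    have hm3 : mm a lam i + mm a lam j + mm a lam k = 1 := by rw [← hs3]; exact hsm
    linear_combination (2 * Real.log (WW a lam)) * hm3
  have hlogb : Real.log (1 + bb a lam) = - Real.log (WW a lam) := by
    rw [hb1, one_div, Real.log_inv]
  set Y := (a i / lam) ^ 4 *
    EE a lam (fun l => (WW a lam * phi a lam l * chi a lam l - 1) ^ 2) with hY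
  have hY0 : 0 ≤ Y := mul_nonneg (by positivity) hE0
  have hb1' : 0 < 1 + bb a lam := by linarith
  rw [Real.log_mul (by positivity) (by positivity), Real.log_pow]
  have hlogY : Real.log (1 + Y) ≤ Y := by
    have := Real.log_le_sub_one_of_pos (show 0 < 1 + Y by linarith)
    linarith
  push_cast
  rw [hlogb]
  rw [e1] at key2
  linarith

theorem analytic3 (V : Type) [Fintype V] (a : Fin 3 → ℝ) (hpos : ∀ i, 0 < a i)
    (hs : ∑ i, a i = 1) (ha : ∀ i, a i ≤ 1 / 2)
    (G : SimpleGraph V) (hG : G.IsTree) (n : ℕ) (hn : Fintype.card V = n + 1) (hn5 : 5 ≤ n)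
    (S : Finset V) (hS4 : 4 ≤ S.card) (hS1 : ∀ v ∈ S, dg G v = 1)
    (hSn : ∀ v ∈ S, ∀ w ∈ S, ¬ G.Adj v w) :
    ∑ i, a i * U a n i ≤ Zf a G (fun _ _ => 1) := by
  obtain ⟨lam, hg⟩ := lam' 3 a (by norm_num) hpos hs
  obtain ⟨hW, hpp, hmm, hsm, hb1, hb0, hv0, hvar⟩ := mfacts' 3 a lam hg
  have hlp : 0 < lam := hg.lam_pos
  have hchipos : ∀ i, 0 < chi a lam i := by
    intro i
    have := (hpp i).2.2
    unfold chi
    apply div_pos _ hlp
    linarith
  have hD : 0 ≤ EE a lam (fun i => Real.log (chi a lam i)) := by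
    have h := (jen' 3 a lam hg (fun _ => 1) (fun _ => one_pos)).2
    have e1 : EE a lam (fun i => Real.log ((fun _ : Fin 3 => (1:ℝ)) i)) = 0 := by
      simp [EE]
    have e2 : EE a lam (fun i => Real.log (Mop a (fun _ => 1) i))
        = Real.log lam + EE a lam (fun i => Real.log (chi a lam i)) := by
      unfold EE
      have : ∀ i, mm a lam i * Real.log (Mop a (fun _ => 1) i)
          = mm a lam i * Real.log lam + mm a lam i * Real.log (chi a lam i) := by
        intro i
        rw [Mop_one a hs i]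
        have e3 : 1 - a i = lam * chi a lam i := by
          unfold chi
          field_simp
        rw [e3, Real.log_mul hlp.ne' (hchipos i).ne']
        ring
      rw [Finset.sum_congr rfl fun i _ => this i, Finset.sum_add_distrib, ← Finset.sum_mul, hsm,
        one_mul]
    rw [e1, e2] at h
    linarith
  have htree := treelog' V 3 a lam hg G hG (fun _ _ => 1) (fun _ _ => one_pos) S hS1 hSn
    (fun _ _ _ => rfl)
  obtain ⟨hZpos, hlog⟩ := htree
  have e0 : ∑ v : V, EE a lam (fun i => Real.log ((fun _ _ => (1:ℝ)) v i : ℝ)) = 0 := by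
    simp [EE]
  rw [e0, hn] at hlog
  obtain ⟨X, hX, hE0, hf⟩ := finint3 a lam hg ha
  have hup := pathup3 mfacts' 3 a lam hg X hX n hn5
  refine hup.trans ?_
  set Y := (1 + bb a lam) ^ 2 *
    (1 + X ^ 4 * EE a lam (fun i => (WW a lam * phi a lam i * chi a lam i - 1) ^ 2)) with hY
  have hYpos : 0 < Y := by
    have h2 : 0 < (1 + bb a lam) ^ 2 := by positivity
    have h3 : 0 ≤ X ^ 4 * EE a lam (fun i => (WW a lam * phi a lam i * chi a lam i - 1) ^ 2) :=
      mul_nonneg (by positivity) hE0
    apply mul_pos h2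
    linarith
  have hprod : 0 < lam ^ (n + 1) * WW a lam * Y := by positivity
  rw [← Real.log_le_log_iff hprod hZpos]
  rw [Real.log_mul (by positivity) hYpos.ne', Real.log_mul (by positivity) hW.ne', Real.log_pow]
  have h4D : 4 * EE a lam (fun i => Real.log (chi a lam i))
      ≤ (S.card : ℝ) * EE a lam (fun i => Real.log (chi a lam i)) := by
    apply mul_le_mul_of_nonneg_right _ hD
    exact_mod_cast hS4
  linarith

theorem final3 (W : Type) [Fintype W] (p : W → Fin 3) (hp : Function.Surjective p)
    (h2 : ∀ i : Fin 3, 2 * Nat.card {w : W // p w = i} ≤ Nat.card W)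
    (n : ℕ) (T : SimpleGraph (Fin n)) (hT : T.IsTree) :
    Nat.card {f : Fin n → W //
        ∀ a b : Fin n, (SimpleGraph.pathGraph n).Adj a b → p (f a) ≠ p (f b)}
      ≤ Nat.card {f : Fin n → W // ∀ a b : Fin n, T.Adj a b → p (f a) ≠ p (f b)} := by
  by_cases hA : ∃ A : Set (Fin n), (∀ u v, T.Adj u v → (u ∈ A ↔ v ∉ A)) ∧
      ∀ v, v ∉ A → (T.neighborSet v).ncard ≤ 2
  · exact thmC 3 (le_refl _) W p hp n T hT hA
  classical
  obtain _ | n := n
  · exfalso
    obtain ⟨v⟩ := hT.connected.nonempty
    exact v.elim0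
  have hcard : (∑ i : Fin 3, (Nat.card {w : W // p w = i} : ℝ)) = Nat.card W := by
    have h1 : Nat.card W = ∑ i : Fin 3, Nat.card {w : W // p w = i} := by
      simp only [Nat.card_eq_fintype_card]
      rw [← Fintype.card_sigma]
      exact Fintype.card_congr (Equiv.sigmaFiberEquiv p).symm
    rw [h1]
    push_cast
    rfl
  have hcpos : ∀ i : Fin 3, 0 < (Nat.card {w : W // p w = i} : ℝ) := by
    intro i
    obtain ⟨w, hw⟩ := hp i
    haveI : Nonempty {w : W // p w = i} := ⟨⟨w, hw⟩⟩
    exact_mod_cast Nat.card_pos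
  set s : ℝ := (Nat.card W : ℝ) with hs
  have hspos : 0 < s := by
    rw [← hcard]
    exact Finset.sum_pos (fun i _ => hcpos i) Finset.univ_nonempty
  set a : Fin 3 → ℝ := fun i => (Nat.card {w : W // p w = i} : ℝ) / s with ha
  have hsa : (fun i : Fin 3 => (Nat.card {w : W // p w = i} : ℝ)) = fun i => s * a i := by
    funext i
    simp only [ha]
    field_simp
  have hapos : ∀ i, 0 < a i := fun i => div_pos (hcpos i) hspos
  have hasum : ∑ i, a i = 1 := by
    simp only [ha]
    rw [← Finset.sum_div, hcard, div_self hspos.ne']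
  have ha2 : ∀ i, a i ≤ 1 / 2 := by
    intro i
    simp only [ha]
    rw [div_le_div_iff₀ hspos (by norm_num)]
    have := h2 i
    have h' : (2 : ℝ) * Nat.card {w : W // p w = i} ≤ s := by
      rw [hs]
      exact_mod_cast this
    linarith
  have key : ∑ i, a i * U a n i ≤ Zf a T (fun _ _ => 1) := by
    rcases count' (Fin (n + 1)) T hT with ⟨c, hc, hv⟩ | ⟨S, hS4, hS1, hSn⟩
    · exact spider_ge legs' self' kc3' (Fin (n + 1)) 3 a hapos hasum T hT c hc hv n (by simp)
    · rcases le_or_gt 5 n with h5 | h5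
      · exact analytic3 (Fin (n + 1)) a hapos hasum ha2 T hT n (by simp) h5 S hS4 hS1 hSn
      · exfalso
        apply hA
        refine ⟨{v | v ∉ S}, ?_, ?_⟩
        · intro u v huv
          simp only [Set.mem_setOf_eq, not_not]
          constructor
          · intro hu
            by_contra hvS
            have hsub : insert u (insert v S) ⊆ (univ : Finset (Fin (n + 1))) := subset_univ _
            have hc := Finset.card_le_card hsub
            rw [Finset.card_insert_of_notMem, Finset.card_insert_of_notMem hvS] at hc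
            · simp at hc
              omega
            · rw [Finset.mem_insert, not_or]
              exact ⟨huv.ne, hu⟩
          · intro hvS huS
            exact hSn u huS v hvS huv
        · intro v hv
          simp only [Set.mem_setOf_eq, not_not] at hv
          have := hS1 v hv
          unfold dg at this
          omega
  rw [← pathz' n 3 a] at key
  have h1 := hom' 3 W p (Fin (n + 1)) (SimpleGraph.pathGraph (n + 1))
  have h2 := hom' 3 W p (Fin (n + 1)) T
  rw [hsa, scale'] at h1 h2
  have : ((Nat.card {f : Fin (n + 1) → W //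
            ∀ a b : Fin (n + 1), (SimpleGraph.pathGraph (n + 1)).Adj a b → p (f a) ≠ p (f b)} : ℕ) : ℝ)
          ≤ ((Nat.card {f : Fin (n + 1) → W //
            ∀ a b : Fin (n + 1), T.Adj a b → p (f a) ≠ p (f b)} : ℕ) : ℝ) := by
    rw [h1, h2]
    exact mul_le_mul_of_nonneg_left key (by positivity)
  exact_mod_cast this

end Pool.Agent.TH886.HLE
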