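import Pool.Agent.TH886.HLE.Final
import Pool.Agent.TH886.HLE.Schur
import Pool.Agent.TH886.HLE.Num

set_option autoImplicit false

/-! Complete multipartite graphs in which every part has at most `3/7` of the vertices. -/

namespace Pool.Agent.TH886.HLE

open Finset Pool.W650.HL

theorem w7 {b u v x : ℝ} (hb : 0 ≤ b) (hu : 0 ≤ u) (hv : 0 ≤ v)
    (hx : x = b + u) (h1 : 7 * x ≤ 3 * (1 + b + v)) (h2 : v * (1 + b) ≤ b * u) :
    7 * (u * x) ≤ 1 + x := by
  have hvb : v ≤ b * u := by nlinarith
  have hvu : v ≤ u := by nlinarith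
  have key : 2 * u + 3 * (b * u) + 3 * (u * v) ≤ 1 + b := by
    rcases le_total b (2 / 5) with hb2 | hb2
    · have hu1 : u * (7 - 3 * b) ≤ 3 - 4 * b := by nlinarith
      have h7 : 0 < 7 - 3 * b := by linarith
      have hu2 : u ≤ 437 / 1000 - 46 / 100 * b := by
        by_contra hc
        push Not at hc
        have := mul_lt_mul_of_pos_right hc h7
        nlinarith [sq_nonneg (b - 19 / 100)]
      have hu3 : u ≤ 437 / 1000 := by linarith
      have e1 : u * v ≤ 191 / 1000 * b := by
        have : u * v ≤ u * (b * u) := mul_le_mul_of_nonneg_left hvb hu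
        have h3 : u * u ≤ 191 / 1000 := by nlinarith
        nlinarith
      nlinarith [sq_nonneg b]
    · have hb34 : b ≤ 3 / 4 := by linarith
      have hvk : v ≤ 3 / 7 * u := by
        have hB : 0 < 1 + b := by linarith
        have : v * (1 + b) ≤ (3 / 7 * u) * (1 + b) := by nlinarith
        exact le_of_mul_le_mul_right this hB
      have hu5 : u ≤ 1 / 4 := by linarith
      have hv5 : v ≤ 1 / 8 := by linarith
      nlinarith
  nlinarith

theorem finintG (r : ℕ) (a : Fin r → ℝ) (lam : ℝ) (hg : Good a lam) (ha : ∀ i, a i ≤ 3 / 7) :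
    ∃ X : ℝ, (∀ i, a i / lam ≤ X) ∧
      0 ≤ EE a lam (fun i => (WW a lam * phi a lam i * chi a lam i - 1) ^ 2) ∧
      Real.log ((1 + bb a lam) ^ 2 *
          (1 + X ^ 4 * EE a lam (fun i => (WW a lam * phi a lam i * chi a lam i - 1) ^ 2)))
        ≤ 2 * EE a lam (fun i => Real.log (phi a lam i))
          + 4 * EE a lam (fun i => Real.log (chi a lam i)) := by
  classical
  obtain ⟨hW, hpp, hmm, hsm, hb1, hb0, hv0, hvar⟩ := mfacts' r a lam hg
  have hl : 0 < lam := hg.lam_pos
  have hne : (univ : Finset (Fin r)).Nonempty := by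
    rw [Finset.nonempty_iff_ne_empty]
    intro h
    have := hg.sum_one
    rw [h] at this
    simp at this
  obtain ⟨i0, _, hmax'⟩ := Finset.exists_max_image univ a hne
  have hmax : ∀ l, a l ≤ a i0 := fun l => hmax' l (mem_univ l)
  have hE0 : 0 ≤ EE a lam (fun i => (WW a lam * phi a lam i * chi a lam i - 1) ^ 2) := by
    unfold EE
    exact Finset.sum_nonneg fun l _ => mul_nonneg (hmm l).le (sq_nonneg _)
  refine ⟨a i0 / lam, fun l => div_le_div_of_nonneg_right (hmax l) hl.le, hE0, ?_⟩
  obtain ⟨b, hbd⟩ : ∃ b, b = bb a lam := ⟨_, rfl⟩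
  obtain ⟨v, hvd⟩ : ∃ v, v = vv a lam := ⟨_, rfl⟩
  obtain ⟨x, hxd⟩ : ∃ x, x = a i0 / lam := ⟨_, rfl⟩
  obtain ⟨u, hud⟩ : ∃ u, u = x - b := ⟨_, rfl⟩
  rw [← hbd] at hb1 hb0 hvar ⊢
  rw [← hvd] at hv0 hvar
  have hinv : 1 / lam = 1 + b + v := by
    rw [hvd]; unfold vv; rw [← hbd]; ring
  have hB : 0 < 1 + b := by linarith
  have hWB : WW a lam * (1 + b) = 1 := by rw [hb1]; field_simp
  set m := mm a lam with hm
  set y : Fin r → ℝ := fun i => a i / lam - b with hy
  have hEb : ∑ i, m i * (a i / lam) = b := by rw [hbd]; rfl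
  have hEy : ∑ i, m i * y i = 0 := by
    simp only [hy, mul_sub, Finset.sum_sub_distrib]
    rw [hEb, ← Finset.sum_mul, hsm]; ring
  have hEy2 : ∑ i, m i * (y i) ^ 2 = (1 + b) * v := by
    have := hvar
    unfold EE at this
    exact this
  have hq : ∀ c0 c1 c2 : ℝ, ∑ l, m l * (c0 + c1 * y l + c2 * y l ^ 2)
      = c0 + c2 * ((1 + b) * v) := by
    intro c0 c1 c2
    have e : ∀ l, m l * (c0 + c1 * y l + c2 * y l ^ 2)
        = c0 * m l + c1 * (m l * y l) + c2 * (m l * y l ^ 2) := fun l => by ring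
    simp only [e, Finset.sum_add_distrib, ← Finset.mul_sum]
    rw [hsm, hEy, hEy2]; ring
  have hx0 : ∀ i, 0 < a i / lam := fun i => div_pos (hg.pos i) hl
  have hyu : ∀ l, y l ≤ u := by
    intro l
    simp only [hy, hud, hxd]
    have := div_le_div_of_nonneg_right (hmax l) hl.le
    linarith
  have hyb : ∀ l, -b ≤ y l := by
    intro l
    simp only [hy]
    linarith [hx0 l]
  have hu0 : 0 ≤ u := by
    have : ∑ l, m l * y l ≤ ∑ l, m l * u :=
      Finset.sum_le_sum fun l _ => mul_le_mul_of_nonneg_left (hyu l) (hmm l).le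
    rw [hEy, ← Finset.sum_mul, hsm] at this
    linarith
  have hxbu : x = b + u := by rw [hud]; ring
  have h1 : 7 * x ≤ 3 * (1 + b + v) := by
    rw [← hinv, hxd]
    have := div_le_div_of_nonneg_right (ha i0) hl.le
    have e : 3 * (1 / lam) = 7 * (3 / 7 / lam) := by ring
    rw [e]
    linarith
  have h2 : v * (1 + b) ≤ b * u := by
    have h : 0 ≤ ∑ l, m l * (b * u + (u - b) * y l + (-1) * y l ^ 2) := by
      apply Finset.sum_nonneg
      intro l _
      apply mul_nonneg (hmm l).le
      have e : b * u + (u - b) * y l + (-1) * y l ^ 2 = (y l + b) * (u - y l) := by ring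
      rw [e]
      exact mul_nonneg (by linarith [hyb l]) (by linarith [hyu l])
    rw [hq] at h
    linarith
  -- p in terms of phi
  have hla : ∀ l, 0 < lam + a l := fun l => add_pos hl (hg.pos l)
  have h1p : ∀ l, 1 - pp a lam l = lam / (lam + a l) := by
    intro l
    have := (hla l).ne'
    unfold pp
    field_simp
    ring
  have h1p0 : ∀ l, 0 < 1 - pp a lam l := fun l => by rw [h1p]; exact div_pos hl (hla l)
  have hphi1 : ∀ l, phi a lam l * (1 - pp a lam l) = 1 := by
    intro l
    have := (hla l).ne'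
    rw [h1p]
    unfold phi
    field_simp
  have hphiy : ∀ l, phi a lam l = (1 + b) + y l := by
    intro l
    simp only [hy]
    unfold phi
    ring
  have hmW : ∀ l, m l = (1 + b) * (pp a lam l * (1 - pp a lam l)) := by
    intro l
    have : m l = pp a lam l * (1 - pp a lam l) / WW a lam := rfl
    rw [this, hb1]
    ring
  -- the atom inequality
  have h5 : x * u ^ 2 ≤ v * (1 + x + x * u) := by
    obtain ⟨m0, hm0⟩ : ∃ m0, m0 = m i0 := ⟨_, rfl⟩
    have hyi0 : y i0 = u := by simp only [hy, hud, hxd]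
    have s1 : ∑ l ∈ univ.erase i0, m l = 1 - m0 := by
      have := Finset.add_sum_erase univ m (mem_univ i0)
      rw [hsm] at this
      rw [hm0]; linarith
    have s2 : ∑ l ∈ univ.erase i0, m l * y l = - (m0 * u) := by
      have := Finset.add_sum_erase univ (fun l => m l * y l) (mem_univ i0)
      rw [hEy] at this
      beta_reduce at this
      rw [hyi0, ← hm0] at this
      linarith
    have s3 : ∑ l ∈ univ.erase i0, m l * y l ^ 2 = (1 + b) * v - m0 * u ^ 2 := by
      have := Finset.add_sum_erase univ (fun l => m l * y l ^ 2) (mem_univ i0)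
      rw [hEy2] at this
      beta_reduce at this
      rw [hyi0, ← hm0] at this
      linarith
    have hcs := Finset.sum_sq_le_sum_mul_sum_of_sq_eq_mul (univ.erase i0)
      (r := fun j => m j * y j) (f := m) (g := fun j => m j * y j ^ 2)
      (fun j _ => (hmm j).le)
      (fun j _ => mul_nonneg (hmm j).le (sq_nonneg _)) (fun j _ => by ring)
    rw [s1, s2, s3] at hcs
    have h6 : m0 * u ^ 2 ≤ (1 - m0) * ((1 + b) * v) := by linarith only [hcs]
    -- m0 (1+x)^2 = (1+b) x
    have h7 : m0 * (1 + x) ^ 2 = (1 + b) * x := by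
      have e1 : phi a lam i0 = 1 + x := by unfold phi; rw [hxd]
      have e2 := hphi1 i0
      rw [e1] at e2
      have e3 : pp a lam i0 * (1 + x) = x := by linarith
      rw [hm0, hmW]
      calc (1 + b) * (pp a lam i0 * (1 - pp a lam i0)) * (1 + x) ^ 2
          = (1 + b) * (pp a lam i0 * (1 + x)) * ((1 + x) * (1 - pp a lam i0)) := by ring
        _ = (1 + b) * x := by rw [e3, e2]; ring
    have h8 := mul_le_mul_of_nonneg_right h6 (sq_nonneg (1 + x))
    have h9 : (1 + b) * (x * u ^ 2) ≤ (1 + b) * (v * ((1 + x) ^ 2 - (1 + b) * x)) := by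
      have e1 : m0 * u ^ 2 * (1 + x) ^ 2 = (1 + b) * (x * u ^ 2) := by
        rw [← mul_assoc (1 + b), ← h7]; ring
      have e2 : (1 - m0) * ((1 + b) * v) * (1 + x) ^ 2
          = (1 + b) * (v * ((1 + x) ^ 2 - (1 + b) * x)) := by
        rw [← h7]; ring
      rw [e1, e2] at h8
      exact h8
    have h10 := le_of_mul_le_mul_left h9 hB
    have e : (1 + x) ^ 2 - (1 + b) * x = 1 + x + x * u := by rw [hxbu]; ring
    rw [e] at h10
    exact h10
  have hxpos : 0 < x := by rw [hxd]; exact hx0 i0
  have h5' : b * u ^ 2 ≤ v * (1 + b + b * u) := by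
    have : x * (b * u ^ 2) ≤ x * (v * (1 + b + b * u)) := by
      have e1 := mul_le_mul_of_nonneg_left h5 hb0.le
      have e2 : 0 ≤ v * (x - b) := mul_nonneg hv0 (by linarith)
      linarith only [e1, e2]
    exact le_of_mul_le_mul_left this hxpos
  -- the Schur inequality
  have h3 : (2 * b - 1) * (1 - b) ≤ 4 * v := by
    obtain ⟨P2, hP2⟩ : ∃ P2, P2 = ∑ l, pp a lam l ^ 2 := ⟨_, rfl⟩
    obtain ⟨P3, hP3⟩ : ∃ P3, P3 = ∑ l, pp a lam l ^ 3 := ⟨_, rfl⟩
    have hsch := schur_fin (pp a lam) (fun l => (hpp l).1.le) hg.eqn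
    rw [← hP2, ← hP3] at hsch
    have hWP : WW a lam = 1 - P2 := by rw [hP2]; rfl
    have hBP : (1 + b) * P2 = b := by
      rw [hWP] at hWB
      linarith
    have hlow : (1 + b) ^ 3 * (P3 - P2 ^ 2) ≤ (1 + b) * v := by
      rw [← hEy2]
      have e : (1 + b) ^ 3 * (P3 - P2 ^ 2)
          = ∑ l, (1 + b) ^ 3 * (pp a lam l * (pp a lam l - P2) ^ 2) := by
        have e1 : ∀ l, (1 + b) ^ 3 * (pp a lam l * (pp a lam l - P2) ^ 2)
            = (1 + b) ^ 3 * (pp a lam l ^ 3) - (1 + b) ^ 3 * (2 * P2) * (pp a lam l ^ 2)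
              + (1 + b) ^ 3 * P2 ^ 2 * pp a lam l := fun l => by ring
        have e0 : ∑ l, pp a lam l = 1 := hg.eqn
        simp only [e1, Finset.sum_add_distrib, Finset.sum_sub_distrib, ← Finset.mul_sum]
        rw [← hP2, ← hP3, e0]
        ring
      rw [e]
      apply Finset.sum_le_sum
      intro l _
      obtain ⟨q, hqd⟩ : ∃ q, q = pp a lam l := ⟨_, rfl⟩
      have hq1 := (hpp l).1
      have hq2 := h1p0 l
      have e2 := hphi1 l
      rw [hphiy l] at e2
      rw [hmW l]
      rw [← hqd] at hq1 hq2 e2 ⊢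
      -- (1 - q) y = (1+b)(q - P2)
      have e3 : y l * (1 - q) = (1 + b) * (q - P2) := by
        have : (1 + b + y l) * (1 - q) = 1 := e2
        linarith
      have e5 : ((1 + b) * (q * (1 - q)) * y l ^ 2) * (1 - q)
          = (1 + b) ^ 3 * (q * (q - P2) ^ 2) := by
        calc ((1 + b) * (q * (1 - q)) * y l ^ 2) * (1 - q)
            = (1 + b) * q * (y l * (1 - q)) ^ 2 := by ring
          _ = _ := by rw [e3]; ring
      rw [← e5]
      have hn : 0 ≤ (1 + b) * (q * (1 - q)) * y l ^ 2 := by positivity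
      have := mul_le_mul_of_nonneg_left (show 1 - q ≤ 1 by linarith) hn
      linarith only [this]
    have h4v : (1 + b) ^ 2 * (P3 - P2 ^ 2) ≤ v := by
      have : (1 + b) * ((1 + b) ^ 2 * (P3 - P2 ^ 2)) ≤ (1 + b) * v := by
        calc (1 + b) * ((1 + b) ^ 2 * (P3 - P2 ^ 2)) = (1 + b) ^ 3 * (P3 - P2 ^ 2) := by ring
          _ ≤ _ := hlow
      exact le_of_mul_le_mul_left this hB
    have e : (2 * b - 1) * (1 - b) = (1 + b) ^ 2 * ((3 * P2 - 1) * (1 - 2 * P2)) := by
      have : (1 + b) ^ 2 * ((3 * P2 - 1) * (1 - 2 * P2))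
          = (3 * ((1 + b) * P2) - (1 + b)) * ((1 + b) - 2 * ((1 + b) * P2)) := by ring
      rw [this, hBP]; ring
    rw [e]
    have h6 : (3 * P2 - 1) * (1 - 2 * P2) ≤ 4 * (P3 - P2 ^ 2) := by linarith only [hsch]
    have h7 := mul_le_mul_of_nonneg_left h6 (sq_nonneg (1 + b))
    linarith
  -- pointwise logarithmic inequality
  have hchi : ∀ i, chi a lam i = 1 + v - y i := by
    intro i
    unfold chi
    simp only [hy]
    have : (1 - a i) / lam = 1 / lam - a i / lam := by rw [sub_div]
    rw [this, hinv]; ring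
  have hchipos : ∀ i, 0 < chi a lam i := by
    intro i
    have := (hpp i).2.2
    unfold chi
    apply div_pos _ hl
    linarith
  have hphipos : ∀ l, 0 < phi a lam l := by
    intro l
    unfold phi
    linarith [hx0 l]
  have hvu : v ≤ u := by nlinarith only [h2, hb0, hu0, hv0]
  have h78 := w7 hb0.le hu0 hv0 hxbu h1 h2
  have hHlow : ∀ l, -(1 / 8) * (1 + b) ≤ (1 + b) * v - (b - v) * y l - y l ^ 2 := by
    intro l
    have e1 : (1 + b) * v - (b - v) * u - u ^ 2 ≤ (1 + b) * v - (b - v) * y l - y l ^ 2 := by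
      have : 0 ≤ (u - y l) * (u + y l + b - v) :=
        mul_nonneg (by linarith [hyu l]) (by linarith [hyb l])
      linarith only [this]
    have e2 : (1 + b) * v - (b - v) * u - u ^ 2 = v * (1 + x) - u * x := by
      rw [hxbu]; ring
    have hpos : 0 < 1 + x + x * u := by positivity
    have e3 : (u * x - v * (1 + x)) * (1 + x + x * u) ≤ u * x * (1 + b) := by
      have := mul_le_mul_of_nonneg_right h5 (show 0 ≤ 1 + x by linarith)
      have e4 : 1 + b = 1 + x - u := by rw [hxbu]; ring
      rw [e4]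
      linarith only [this]
    have e5 : u * x * (1 + b) ≤ 1 / 8 * (1 + b) * (1 + x + x * u) := by
      have := mul_le_mul_of_nonneg_left h78 hB.le
      linarith only [this]
    have e6 : u * x - v * (1 + x) ≤ 1 / 8 * (1 + b) :=
      le_of_mul_le_mul_right (e3.trans e5) hpos
    linarith
  have hpt : ∀ l, 4 * (((1 + b) * v - (b - v) * y l - y l ^ 2) / (1 + b))
      - 4 * (11 / 20) * (((1 + b) * v - (b - v) * y l - y l ^ 2) / (1 + b)) ^ 2
      - 2 * (y l / (1 + b)) + (y l / (1 + b)) ^ 2 - 2 / 3 * (y l / (1 + b)) ^ 3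
      ≤ 4 * Real.log (chi a lam l) + 2 * Real.log (WW a lam * phi a lam l) := by
    intro l
    apply pt (hchipos l) (mul_pos hW (hphipos l))
    · rw [hphiy l]
      have : WW a lam = 1 / (1 + b) := by rw [hb1]; field_simp
      rw [this]
      field_simp
    · rw [hphiy l, hchi l]
      have : WW a lam = 1 / (1 + b) := by rw [hb1]; field_simp
      rw [this]
      field_simp
      ring
    · apply logA (w0 := 1 / 8) (by norm_num) (by norm_num) (by norm_num) (by norm_num)
      rw [le_div_iff₀ hB]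
      have := hHlow l
      linarith
  obtain ⟨M3, hM3⟩ : ∃ M3, M3 = ∑ l, m l * y l ^ 3 := ⟨_, rfl⟩
  obtain ⟨MH, hMH⟩ : ∃ MH, MH = ∑ l, m l * ((1 + b) * v - (b - v) * y l - y l ^ 2) ^ 2 :=
    ⟨_, rfl⟩
  have hMH0 : 0 ≤ MH := by
    rw [hMH]
    exact Finset.sum_nonneg fun l _ => mul_nonneg (hmm l).le (sq_nonneg _)
  have hsumpt := Finset.sum_le_sum (fun l (_ : l ∈ univ) =>
    mul_le_mul_of_nonneg_left (hpt l) (hmm l).le)
  have hL : ∑ l, mm a lam l * (4 * (((1 + b) * v - (b - v) * y l - y l ^ 2) / (1 + b))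
      - 4 * (11 / 20) * (((1 + b) * v - (b - v) * y l - y l ^ 2) / (1 + b)) ^ 2
      - 2 * (y l / (1 + b)) + (y l / (1 + b)) ^ 2 - 2 / 3 * (y l / (1 + b)) ^ 3)
      = v / (1 + b) - 2 / 3 * (M3 / (1 + b) ^ 3) - 11 / 5 * (MH / (1 + b) ^ 2) := by
    have e : ∀ l, mm a lam l * (4 * (((1 + b) * v - (b - v) * y l - y l ^ 2) / (1 + b))
      - 4 * (11 / 20) * (((1 + b) * v - (b - v) * y l - y l ^ 2) / (1 + b)) ^ 2
      - 2 * (y l / (1 + b)) + (y l / (1 + b)) ^ 2 - 2 / 3 * (y l / (1 + b)) ^ 3)
        = m l * (4 * v + (-(4 * (b - v) + 2) / (1 + b)) * y l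
            + (1 / (1 + b) ^ 2 - 4 / (1 + b)) * y l ^ 2)
          - 2 / 3 / (1 + b) ^ 3 * (m l * y l ^ 3)
          - 11 / 5 / (1 + b) ^ 2 * (m l * ((1 + b) * v - (b - v) * y l - y l ^ 2) ^ 2) := by
      intro l
      rw [← hm]
      field_simp
      ring
    simp only [e, Finset.sum_sub_distrib, ← Finset.mul_sum]
    rw [hq, ← hM3, ← hMH]
    field_simp
    ring
  rw [hL] at hsumpt
  -- the main inequality
  have hmain : (11 / 5 + x ^ 4) * (MH / (1 + b) ^ 2)
      ≤ v / (1 + b) - 2 / 3 * (M3 / (1 + b) ^ 3) := by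
    rcases le_total b (2 / 5) with hb2 | hb2
    · have hn := num1 hb0.le hb2 hu0 hv0 hxbu h1 h2
      have k1 : M3 ≤ u * ((1 + b) * v) := by
        have : M3 ≤ ∑ l, m l * (0 + 0 * y l + u * y l ^ 2) := by
          rw [hM3]
          apply Finset.sum_le_sum
          intro l _
          apply mul_le_mul_of_nonneg_left _ (hmm l).le
          have := mul_nonneg (sq_nonneg (y l)) (show 0 ≤ u - y l by linarith [hyu l])
          linarith only [this]
        rw [hq] at this
        linarith
      have k2 : MH ≤ (1 + b) * v * ((x - v) ^ 2 - (1 + b) * v) := by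
        have : MH ≤ ∑ l, m l * (((1 + b) * v) ^ 2 + (-(2 * ((1 + b) * v) * (b - v))) * y l
            + ((x - v) ^ 2 - 2 * ((1 + b) * v)) * y l ^ 2) := by
          rw [hMH]
          apply Finset.sum_le_sum
          intro l _
          apply mul_le_mul_of_nonneg_left _ (hmm l).le
          have h2v : 2 * v ≤ u := by
            have q1 : v ≤ b * u := by linarith only [h2, mul_nonneg hv0 hb0.le]
            have q2 : b * u ≤ 2 / 5 * u := mul_le_mul_of_nonneg_right hb2 hu0
            linarith only [q1, q2, hu0]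
          have e := mul_nonneg (sq_nonneg (y l)) (mul_nonneg (show 0 ≤ u - y l by linarith [hyu l])
            (show 0 ≤ y l + 2 * (b - v) + u by linarith [hyb l]))
          have e2 : ((1 + b) * v) ^ 2 + (-(2 * ((1 + b) * v) * (b - v))) * y l
            + ((x - v) ^ 2 - 2 * ((1 + b) * v)) * y l ^ 2
            - ((1 + b) * v - (b - v) * y l - y l ^ 2) ^ 2
            = y l ^ 2 * ((u - y l) * (y l + 2 * (b - v) + u)) := by
            rw [hxbu]; ring
          linarith only [e, e2]
        rw [hq] at this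
        refine this.trans (le_of_eq ?_)
        ring
      have k3 : MH / (1 + b) ^ 2 ≤ v / (1 + b) * ((x - v) ^ 2 - (1 + b) * v) := by
        rw [div_le_iff₀ (by positivity)]
        refine k2.trans (le_of_eq ?_)
        field_simp
      have k4 : 2 / 3 * (M3 / (1 + b) ^ 3) ≤ v / (1 + b) * (2 / 3 * (u / (1 + b))) := by
        have : M3 / (1 + b) ^ 3 ≤ u * ((1 + b) * v) / (1 + b) ^ 3 :=
          div_le_div_of_nonneg_right k1 (by positivity)
        have e : v / (1 + b) * (2 / 3 * (u / (1 + b)))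
            = 2 / 3 * (u * ((1 + b) * v) / (1 + b) ^ 3) := by
          field_simp
        rw [e]
        linarith
      have k5 := mul_le_mul_of_nonneg_left hn (show 0 ≤ v / (1 + b) by positivity)
      have k6 := mul_le_mul_of_nonneg_left k3 (show 0 ≤ 11 / 5 + x ^ 4 by positivity)
      linarith only [k4, k5, k6]
    · have hn := num2 hb2 hu0 hv0 hxbu h1 h2 h3
      have hb34 : b ≤ 3 / 4 := by linarith
      have hvk : v ≤ 3 / 7 * u := by
        have : v * (1 + b) ≤ (3 / 7 * u) * (1 + b) := by nlinarith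
        exact le_of_mul_le_mul_right this hB
      have hu5 : u ≤ 1 / 4 := by linarith
      have hv2 : 2 * v ≤ b := by linarith
      have hcub : ∀ l, 0 ≤ (u - y l) * (y l + u / 2) ^ 2 := fun l =>
        mul_nonneg (by linarith [hyu l]) (sq_nonneg _)
      have k1 : M3 ≤ u ^ 3 / 4 := by
        have : M3 ≤ ∑ l, m l * (u ^ 3 / 4 + 3 / 4 * u ^ 2 * y l + 0 * y l ^ 2) := by
          rw [hM3]
          apply Finset.sum_le_sum
          intro l _
          apply mul_le_mul_of_nonneg_left _ (hmm l).le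
          have := hcub l
          linarith only [this]
        rw [hq] at this
        linarith
      have k2 : MH ≤ (1 + b) * v * (3 / 4 * u ^ 2 + (b - v) ^ 2 - (1 + b) * v)
          + (b - v) * u ^ 3 / 2 := by
        have : MH ≤ ∑ l, m l * ((((1 + b) * v) ^ 2 + (b - v) * u ^ 3 / 2)
            + (u ^ 3 / 4 + 3 / 2 * (b - v) * u ^ 2 - 2 * ((1 + b) * v) * (b - v)) * y l
            + (3 / 4 * u ^ 2 + (b - v) ^ 2 - 2 * ((1 + b) * v)) * y l ^ 2) := by
          rw [hMH]
          apply Finset.sum_le_sum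
          intro l _
          apply mul_le_mul_of_nonneg_left _ (hmm l).le
          have e := mul_nonneg (hcub l) (show 0 ≤ y l + 2 * (b - v) by linarith [hyb l])
          have e2 : (((1 + b) * v) ^ 2 + (b - v) * u ^ 3 / 2)
            + (u ^ 3 / 4 + 3 / 2 * (b - v) * u ^ 2 - 2 * ((1 + b) * v) * (b - v)) * y l
            + (3 / 4 * u ^ 2 + (b - v) ^ 2 - 2 * ((1 + b) * v)) * y l ^ 2
            - ((1 + b) * v - (b - v) * y l - y l ^ 2) ^ 2
            = (u - y l) * (y l + u / 2) ^ 2 * (y l + 2 * (b - v)) := by ring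
          linarith only [e, e2]
        rw [hq] at this
        refine this.trans (le_of_eq ?_)
        ring
      have hbp : 0 < b := by linarith
      have k7 : (b - v) * u ^ 3 / 2 ≤ (1 + b) * v * (u / 2 + b * u ^ 2 / (2 * (1 + b))) := by
        have e1 : (b - v) * u ^ 3 ≤ b * u ^ 3 :=
          mul_le_mul_of_nonneg_right (by linarith) (by positivity)
        have e2 : b * u ^ 3 ≤ u * (v * (1 + b + b * u)) := by
          have := mul_le_mul_of_nonneg_left h5' hu0
          linarith only [this]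
        have e3 : (1 + b) * v * (u / 2 + b * u ^ 2 / (2 * (1 + b)))
            = u * (v * (1 + b + b * u)) / 2 := by
          field_simp
        rw [e3]
        linarith
      have k3 : MH / (1 + b) ^ 2 ≤ v / (1 + b) *
          ((b - v) ^ 2 - (1 + b) * v + 3 / 4 * u ^ 2 + u / 2 + b * u ^ 2 / (2 * (1 + b))) := by
        rw [div_le_iff₀ (by positivity)]
        have e : v / (1 + b) *
          ((b - v) ^ 2 - (1 + b) * v + 3 / 4 * u ^ 2 + u / 2 + b * u ^ 2 / (2 * (1 + b)))
            * (1 + b) ^ 2 = (1 + b) * v * (3 / 4 * u ^ 2 + (b - v) ^ 2 - (1 + b) * v)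
              + (1 + b) * v * (u / 2 + b * u ^ 2 / (2 * (1 + b))) := by
          field_simp
          ring
        rw [e]
        linarith
      have k4 : 2 / 3 * (M3 / (1 + b) ^ 3)
          ≤ v / (1 + b) * ((u / b + u ^ 2 / (1 + b)) / (6 * (1 + b))) := by
        have e1 : u ^ 3 ≤ v * (u / b + u ^ 2 / (1 + b)) * (1 + b) := by
          have e2 : v * (u / b + u ^ 2 / (1 + b)) * (1 + b)
              = u * (v * (1 + b + b * u)) / b := by
            field_simp
          rw [e2, le_div_iff₀ hbp]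
          have := mul_le_mul_of_nonneg_left h5' hu0
          linarith only [this]
        have e3 : M3 / (1 + b) ^ 3 ≤ (v * (u / b + u ^ 2 / (1 + b)) * (1 + b) / 4)
            / (1 + b) ^ 3 := by
          apply div_le_div_of_nonneg_right _ (by positivity)
          linarith
        have e4 : v / (1 + b) * ((u / b + u ^ 2 / (1 + b)) / (6 * (1 + b)))
            = 2 / 3 * ((v * (u / b + u ^ 2 / (1 + b)) * (1 + b) / 4) / (1 + b) ^ 3) := by
          field_simp
          ring
        rw [e4]
        linarith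
      have k5 := mul_le_mul_of_nonneg_left hn (show 0 ≤ v / (1 + b) by positivity)
      have k6 := mul_le_mul_of_nonneg_left k3 (show 0 ≤ 11 / 5 + x ^ 4 by positivity)
      linarith only [k4, k5, k6]
  have hEH : EE a lam (fun i => (WW a lam * phi a lam i * chi a lam i - 1) ^ 2)
      = MH / (1 + b) ^ 2 := by
    rw [hMH, Finset.sum_div]
    unfold EE
    refine Finset.sum_congr rfl fun l _ => ?_
    have e1 : WW a lam * phi a lam l * chi a lam l - 1
        = ((1 + b) * v - (b - v) * y l - y l ^ 2) / (1 + b) := by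
      rw [hphiy l, hchi l]
      have : WW a lam = 1 / (1 + b) := by rw [hb1]; field_simp
      rw [this]
      field_simp
      ring
    beta_reduce
    rw [e1, div_pow, ← hm]
    ring
  have e1 : ∑ l, mm a lam l * (4 * Real.log (chi a lam l)
        + 2 * Real.log (WW a lam * phi a lam l))
      = 4 * EE a lam (fun l => Real.log (chi a lam l))
        + 2 * EE a lam (fun l => Real.log (phi a lam l)) + 2 * Real.log (WW a lam) := by
    have h : ∀ l, mm a lam l * (4 * Real.log (chi a lam l)
        + 2 * Real.log (WW a lam * phi a lam l))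
        = 4 * (mm a lam l * Real.log (chi a lam l)) + 2 * (mm a lam l * Real.log (phi a lam l))
          + 2 * Real.log (WW a lam) * mm a lam l := by
      intro l
      rw [Real.log_mul hW.ne' (hphipos l).ne']
      ring
    unfold EE
    simp only [h, Finset.sum_add_distrib, ← Finset.mul_sum]
    rw [← hm, hsm]
    ring
  have hlogb : Real.log (1 + b) = - Real.log (WW a lam) := by
    rw [hb1, one_div, Real.log_inv]
  rw [← hxd]
  set Y := x ^ 4 * EE a lam (fun l => (WW a lam * phi a lam l * chi a lam l - 1) ^ 2) with hY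
  have hY0 : 0 ≤ Y := mul_nonneg (by positivity) hE0
  rw [Real.log_mul (by positivity) (by positivity), Real.log_pow]
  have hlogY : Real.log (1 + Y) ≤ Y := by
    have := Real.log_le_sub_one_of_pos (show 0 < 1 + Y by linarith)
    linarith
  push_cast
  rw [hlogb]
  rw [e1] at hsumpt
  have hYe : Y = x ^ 4 * (MH / (1 + b) ^ 2) := by rw [hY, hEH]
  linarith only [hsumpt, hmain, hYe, hlogY]

end Pool.Agent.TH886.HLE
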